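import Mathlib
import Pool.Agent.H52.ML.Plane

/-!
Measurable countably infinite lists on the plane: a proper measurable choice off a null set.
-/

set_option autoImplicit false

namespace Pool.Agent.Results.MP_417607_co.ChoiceOffNullSet

open MeasureTheory

/-- If every point `x` of the plane is given a countably infinite list `g 0 x, g 1 x, ...` of
different elements of a countably separated measurable space (for instance the real numbers), the
functions `g i` being Borel, then there are a Borel function `ι` and a Borel set `Z` of Lebesgue
measure zero such that the chosen elements `g (ι x) x` and `g (ι y) y` are different for any two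
points `x`, `y` outside `Z` at distance one. -/
theorem result (Y : Type) [MeasurableSpace Y] [MeasurableSpace.CountablySeparated Y]
    (g : ℕ → EuclideanSpace ℝ (Fin 2) → Y) (hg : ∀ i, Measurable (g i))
    (hinj : ∀ x, Function.Injective (fun i => g i x)) :
    ∃ (ι : EuclideanSpace ℝ (Fin 2) → ℕ) (Z : Set (EuclideanSpace ℝ (Fin 2))),
      Measurable ι ∧ MeasurableSet Z ∧ volume Z = 0 ∧
      ∀ x ∉ Z, ∀ y ∉ Z, dist x y = 1 → g (ι x) x ≠ g (ι y) y :=
  H52.ML.plane_null Y g hg hinj

end Pool.Agent.Results.MP_417607_co.ChoiceOffNullSet
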