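import Mathlib
import Pool.Agent.H52.ML.Plane

/-!
Borel lists of natural numbers on the plane: a proper Borel choice off a null and meagre set.
-/

set_option autoImplicit false

namespace Pool.Agent.Results.MP_417607_co.NaturalLists

open MeasureTheory

/-- For every Borel assignment of infinite lists of natural numbers to the points of the plane
there is a Borel choice of colours from the lists which is proper outside a Borel set that is
Lebesgue null and meagre. -/
theorem result (L : EuclideanSpace ℝ (Fin 2) → Set ℕ) (hinf : ∀ x, (L x).Infinite)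
    (hL : ∀ n, MeasurableSet {x | n ∈ L x}) :
    ∃ (c : EuclideanSpace ℝ (Fin 2) → ℕ) (Z : Set (EuclideanSpace ℝ (Fin 2))),
      Measurable c ∧ MeasurableSet Z ∧ volume Z = 0 ∧ IsMeagre Z ∧ (∀ x, c x ∈ L x) ∧
      ∀ x ∉ Z, ∀ y ∉ Z, dist x y = 1 → c x ≠ c y :=
  H52.ML.plane_nat L hinf hL

end Pool.Agent.Results.MP_417607_co.NaturalLists
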