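import Mathlib
import Pool.Agent.H52.ML.Plane

/-!
Borel countable lists of real numbers on the plane without a choice which has the property of
Baire and is proper on a comeagre set.
-/

set_option autoImplicit false

namespace Pool.Agent.Results.MP_417607_co.NoBaireChoice

open MeasureTheory

/-- There are Borel functions `g 0, g 1, ...` from the plane to the real numbers, with different
values at every point, such that no function `ι` with the property of Baire makes the choice
`x ↦ g (ι x) x` proper outside a meagre set. -/
theorem result : ∃ g : ℕ → EuclideanSpace ℝ (Fin 2) → ℝ,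
    (∀ j, Measurable (g j)) ∧ (∀ x, Function.Injective (fun j => g j x)) ∧
    ∀ (ι : EuclideanSpace ℝ (Fin 2) → ℕ) (Z : Set (EuclideanSpace ℝ (Fin 2))),
      (∀ n, BaireMeasurableSet (ι ⁻¹' {n})) → IsMeagre Z →
      ∃ x ∉ Z, ∃ y ∉ Z, dist x y = 1 ∧ g (ι x) x = g (ι y) y :=
  H52.ML.plane_real

end Pool.Agent.Results.MP_417607_co.NoBaireChoice
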