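import Mathlib
import Pool.Agent.H52.ML.Plane

/-!
Borel lists of natural numbers on the plane without a measurable choice of colours.
-/

set_option autoImplicit false

namespace Pool.Agent.Results.MP_417607_co.NoMeasurableChoice

open MeasureTheory

/-- There is a Borel assignment of infinite lists of natural numbers to the points of the plane
such that every choice of colours from the lists which is Lebesgue measurable or has the property
of Baire gives the same colour to two points at distance one. -/
theorem result : ∃ L : EuclideanSpace ℝ (Fin 2) → Set ℕ,
    (∀ x, (L x).Infinite) ∧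
    (∀ n, MeasurableSet {x | n ∈ L x}) ∧
    ∀ c : EuclideanSpace ℝ (Fin 2) → ℕ, (∀ x, c x ∈ L x) →
      (∀ n, NullMeasurableSet (c ⁻¹' {n}) volume) ∨ (∀ n, BaireMeasurableSet (c ⁻¹' {n})) →
      ∃ x y : EuclideanSpace ℝ (Fin 2), dist x y = 1 ∧ c x = c y :=
  H52.ML.plane_neg

end Pool.Agent.Results.MP_417607_co.NoMeasurableChoice
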